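import Mathlib

/-!
# Even-cycle-intersecting families of permutations: the Sylow conjecture fails for `n = 7`

In `S_7` there is an even-cycle-intersecting family with 32 elements, whereas a Sylow 2-subgroup
(and hence each of its double-translates) has only 16 elements.
-/

namespace Pool.Agent.Results.MP_acd7ab_co.CounterexampleS7

/-- `σ` has at least one cycle of even length in its disjoint cycle decomposition. -/
def HasEvenCycle {n : ℕ} (σ : Equiv.Perm (Fin n)) : Prop := ∃ k ∈ σ.cycleType, Even k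

/-- `σ π⁻¹` has a cycle of even length for all distinct `σ, π ∈ F`. -/
def EvenCycleIntersecting {n : ℕ} (F : Finset (Equiv.Perm (Fin n))) : Prop :=
  ∀ σ ∈ F, ∀ π ∈ F, σ ≠ π → HasEvenCycle (σ * π⁻¹)

/-- An even-cycle-intersecting family of maximum size. -/
def Extremal {n : ℕ} (F : Finset (Equiv.Perm (Fin n))) : Prop :=
  EvenCycleIntersecting F ∧
    ∀ F' : Finset (Equiv.Perm (Fin n)), EvenCycleIntersecting F' → F'.card ≤ F.card

/-- `F = σ P π` for some permutations `σ, π`. -/
def IsDoubleTranslate {n : ℕ} (P : Subgroup (Equiv.Perm (Fin n)))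
    (F : Finset (Equiv.Perm (Fin n))) : Prop :=
  ∃ σ π : Equiv.Perm (Fin n), ∀ x, x ∈ F ↔ ∃ g ∈ P, x = σ * g * π

/-- the `x`-th base-8 digit of `t` -/
def app (t : ℕ) (x : Fin 7) : Fin 7 := Fin.ofNat 7 ((t >>> (3 * x.val)) % 8)

/-- the permutation coded by `t`, with inverse coded by `s` -/
def mk (t s : ℕ) : Equiv.Perm (Fin 7) :=
  if h : (∀ x, app s (app t x) = x) ∧ (∀ x, app t (app s x) = x) then
    ⟨app t, app s, h.1, h.2⟩ else 1

/-- codes of the 32 permutations and of their inverses -/
def L : List (ℕ × ℕ) :=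
  [(1754760, 1754760), (1725640, 1725640), (706440, 706440), (1467032, 1266328),
   (387744, 1153712), (1616104, 1619240), (342440, 571760), (1157744, 387856),
   (939393, 679105), (706433, 706433), (1681953, 1678082), (109473, 629510),
   (80241, 342342), (190218, 1222158), (1724954, 1724954), (1677858, 1677858),
   (821674, 572460), (443954, 443954), (583723, 1094058), (414771, 413938),
   (1738380, 1738380), (109452, 625422), (1652805, 1587537), (140189, 545566),
   (371462, 109361), (1222158, 190218), (1390606, 211274), (181846, 181846),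
   (152670, 152278), (656222, 86940), (625254, 105364), (47278, 47278)]

/-- `σ π⁻¹` at the level of codes: `a = (t, _)` codes `σ`, `b = (_, s)` codes `π` -/
def quo (a b : ℕ × ℕ) (x : Fin 7) : Fin 7 := app a.1 (app b.2 x)

/-- three steps of `quo a b` -/
def quo3 (a b : ℕ × ℕ) (x : Fin 7) : Fin 7 := quo a b (quo a b (quo a b x))

lemma valid : ∀ a ∈ L, (∀ x, app a.2 (app a.1 x) = x) ∧ (∀ x, app a.1 (app a.2 x) = x) := by
  decide +kernel

lemma check : (L.all fun a => L.all fun b => decide (a = b) ||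
    (List.finRange 7).any fun x =>
      decide (quo3 a b (quo3 a b (quo3 a b (quo3 a b x))) = x) &&
      !decide (quo3 a b (quo3 a b (quo3 a b x)) = x)) = true := by
  decide +kernel

lemma mk_apply {a : ℕ × ℕ} (ha : a ∈ L) (x : Fin 7) : mk a.1 a.2 x = app a.1 x := by
  unfold mk
  rw [dif_pos (valid a ha)]
  rfl

lemma mk_inv_apply {a : ℕ × ℕ} (ha : a ∈ L) (x : Fin 7) : (mk a.1 a.2)⁻¹ x = app a.2 x := by
  unfold mk
  rw [dif_pos (valid a ha)]
  rfl

lemma hasEvenCycle_of_pow {σ : Equiv.Perm (Fin 7)} {x : Fin 7} (h12 : (σ ^ 12) x = x)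
    (h9 : (σ ^ 9) x ≠ x) : HasEvenCycle σ := by
  by_contra hcon
  unfold HasEvenCycle at hcon
  push Not at hcon
  have h1 : σ.cycleType.lcm ∣ 105 := by
    rw [Multiset.lcm_dvd]
    intro k hk
    have h2 : 2 ≤ k := Equiv.Perm.two_le_of_mem_cycleType hk
    have h3 : k ≤ 7 := by
      have h4 : k ≤ σ.support.card := Equiv.Perm.le_card_support_of_mem_cycleType hk
      have h5 : σ.support.card ≤ 7 := by
        have := Finset.card_le_univ σ.support
        simpa using this
      omega
    have h6 := hcon k hk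
    rw [Nat.not_even_iff_odd] at h6
    interval_cases k
    · exact absurd h6 (by decide)
    · decide
    · exact absurd h6 (by decide)
    · decide
    · exact absurd h6 (by decide)
    · decide
  rw [Equiv.Perm.lcm_cycleType] at h1
  have h2 : σ ^ 105 = 1 := orderOf_dvd_iff_pow_eq_one.1 h1
  apply h9
  have h3 : ∀ k : ℕ, ((σ ^ 12) ^ k) x = x := by
    intro k
    induction k with
    | zero => simp
    | succ k ih => rw [pow_succ, Equiv.Perm.mul_apply, h12, ih]
  calc (σ ^ 9) x = (σ ^ 9) (((σ ^ 12) ^ 8) x) := by rw [h3]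
    _ = (σ ^ 105) x := by rw [← Equiv.Perm.mul_apply, ← pow_mul, ← pow_add]
    _ = x := by rw [h2]; rfl

lemma pair_even {a b : ℕ × ℕ} (ha : a ∈ L) (hb : b ∈ L) (hab : a ≠ b) :
    HasEvenCycle (mk a.1 a.2 * (mk b.1 b.2)⁻¹) := by
  have h := check
  rw [List.all_eq_true] at h
  have h1 := h a ha
  rw [List.all_eq_true] at h1
  have h2 := h1 b hb
  rw [Bool.or_eq_true] at h2
  rcases h2 with h2 | h2
  · exact absurd (of_decide_eq_true h2) hab
  · rw [List.any_eq_true] at h2
    obtain ⟨x, _, hx⟩ := h2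
    rw [Bool.and_eq_true, decide_eq_true_eq, Bool.not_eq_true', decide_eq_false_iff_not] at hx
    have hq : ∀ y, (mk a.1 a.2 * (mk b.1 b.2)⁻¹) y = quo a b y := by
      intro y
      rw [Equiv.Perm.mul_apply, mk_inv_apply hb, mk_apply ha]
      rfl
    have hq3 : ∀ y, ((mk a.1 a.2 * (mk b.1 b.2)⁻¹) ^ 3) y = quo3 a b y := by
      intro y
      rw [pow_succ, pow_succ, pow_one, Equiv.Perm.mul_apply, Equiv.Perm.mul_apply, hq, hq, hq]
      rfl
    refine hasEvenCycle_of_pow (x := x) ?_ ?_
    · rw [show (12 : ℕ) = 3 * 4 by rfl, pow_mul, pow_succ, pow_succ, pow_succ, pow_one,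
        Equiv.Perm.mul_apply, Equiv.Perm.mul_apply, Equiv.Perm.mul_apply, hq3, hq3, hq3, hq3]
      exact hx.1
    · rw [show (9 : ℕ) = 3 * 3 by rfl, pow_mul, pow_succ, pow_succ, pow_one,
        Equiv.Perm.mul_apply, Equiv.Perm.mul_apply, hq3, hq3, hq3]
      exact hx.2

/-- the family -/
def family : Finset (Equiv.Perm (Fin 7)) := L.toFinset.image (fun a => mk a.1 a.2)

lemma hasEvenCycle_one_false {n : ℕ} : ¬ HasEvenCycle (1 : Equiv.Perm (Fin n)) := by
  rintro ⟨k, hk, _⟩
  simp at hk

lemma family_card : family.card = 32 := by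
  unfold family
  rw [Finset.card_image_of_injOn]
  · decide
  · intro a ha b hb hab
    rw [Finset.mem_coe, List.mem_toFinset] at ha hb
    by_contra hne
    have h := pair_even ha hb hne
    have hab' : mk a.1 a.2 = mk b.1 b.2 := hab
    rw [hab', mul_inv_cancel] at h
    exact hasEvenCycle_one_false h

lemma family_eci : EvenCycleIntersecting family := by
  intro σ hσ π hπ hne
  unfold family at hσ hπ
  rw [Finset.mem_image] at hσ hπ
  obtain ⟨a, ha, rfl⟩ := hσ
  obtain ⟨b, hb, rfl⟩ := hπ
  rw [List.mem_toFinset] at ha hb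
  apply pair_even ha hb
  rintro rfl
  exact hne rfl

lemma exists_extremal (n : ℕ) : ∃ F : Finset (Equiv.Perm (Fin n)), Extremal F := by
  classical
  obtain ⟨F, hF, hmax⟩ := Finset.exists_max_image
    (Finset.univ.filter (fun F : Finset (Equiv.Perm (Fin n)) => EvenCycleIntersecting F))
    Finset.card ⟨∅, by
      rw [Finset.mem_filter]
      exact ⟨Finset.mem_univ _, fun σ hσ => absurd hσ (Finset.notMem_empty _)⟩⟩
  rw [Finset.mem_filter] at hF
  refine ⟨F, hF.2, fun F' hF' => hmax F' ?_⟩
  rw [Finset.mem_filter]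
  exact ⟨Finset.mem_univ _, hF'⟩

lemma sylow_card (P : Sylow 2 (Equiv.Perm (Fin 7))) : Nat.card P = 16 := by
  rw [Sylow.card_eq_multiplicity]
  have h1 : Nat.card (Equiv.Perm (Fin 7)) = 5040 := by
    rw [Nat.card_eq_fintype_card, Fintype.card_perm, Fintype.card_fin]
    rfl
  rw [h1]
  have h2 : (5040 : ℕ).factorization 2 = 4 := by
    apply le_antisymm
    · by_contra hlt
      push Not at hlt
      have : 2 ^ 5 ∣ 5040 :=
        (Nat.Prime.pow_dvd_iff_le_factorization Nat.prime_two (by norm_num)).2 hlt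
      revert this
      decide
    · exact (Nat.Prime.pow_dvd_iff_le_factorization Nat.prime_two (by norm_num)).1 (by decide)
  rw [h2]
  norm_num

/-- In `S_7` there is an extremal even-cycle-intersecting family; it has at least 32 elements,
while every Sylow 2-subgroup `P` of `S_7` has 16 elements, and so the family is not a
double-translate `σ P π` of any Sylow 2-subgroup. -/
theorem result : ∃ F : Finset (Equiv.Perm (Fin 7)), Extremal F ∧ 32 ≤ F.card ∧
    ∀ P : Sylow 2 (Equiv.Perm (Fin 7)), Nat.card P = 16 ∧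
      ¬ IsDoubleTranslate (P : Subgroup (Equiv.Perm (Fin 7))) F := by
  obtain ⟨F, hF⟩ := exists_extremal 7
  have h32 : 32 ≤ F.card := by
    have := hF.2 family family_eci
    rwa [family_card] at this
  refine ⟨F, hF, h32, fun P => ⟨sylow_card P, ?_⟩⟩
  rintro ⟨σ, π, hσπ⟩
  have h1 : F.card ≤ Nat.card P := by
    classical
    have h2 : Nat.card F = F.card := by simp
    rw [← h2]
    have hex : ∀ x : F, ∃ g : P, (x : Equiv.Perm (Fin 7)) = σ * g * π := by
      intro x
      obtain ⟨g, hg, hx⟩ := (hσπ x).1 x.2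
      exact ⟨⟨g, hg⟩, hx⟩
    choose f hf using hex
    refine Nat.card_le_card_of_injective f ?_
    intro x y hxy
    apply Subtype.ext
    rw [hf x, hf y, hxy]
  rw [sylow_card P] at h1
  omega

end Pool.Agent.Results.MP_acd7ab_co.CounterexampleS7
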